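import Pool.Agent.H7.GT.Stmts

/-!
# Board gt7, row DKU: cliques sorted by their part in `Z`
-/

set_option autoImplicit false

open Finset

namespace Pool.GT7

open Pool.Agent.H23.KT Pool.Agent.H46.KW Pool.KQ

section

variable {V : Type} [DecidableEq V] (G : SimpleGraph V) {X Z : Finset V}

theorem DKU_split {K : Finset V} (hK : K ⊆ X ∪ Z) : (K ∩ Z) ∪ (K ∩ X) = K := by
  ext x
  simp only [mem_union, mem_inter]
  constructor
  · rintro (h | h) <;> exact h.1
  · intro h
    rcases mem_union.1 (hK h) with h' | h'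
    · exact Or.inr ⟨h, h'⟩
    · exact Or.inl ⟨h, h'⟩

theorem DKU_card (hd : Disjoint X Z) {K : Finset V} (hK : K ⊆ X ∪ Z) :
    (K ∩ X).card + (K ∩ Z).card = K.card := by
  have h1 : Disjoint (K ∩ Z) (K ∩ X) :=
    (hd.symm.mono inter_subset_right inter_subset_right)
  have h2 := card_union_of_disjoint h1
  rw [DKU_split hK] at h2
  omega

theorem DKU_rest (hd : Disjoint X Z) {n j : ℕ} {K : Finset V} (hK : K ∈ clq G (X ∪ Z) n) {z : V}
    (hz : z ∈ K) (hzZ : z ∈ Z) (hj : j + (K ∩ Z).card = n) : K ∩ X ∈ clq G (nb G X z) j := by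
  rw [mem_clq] at hK ⊢
  obtain ⟨h1, h2, h3⟩ := hK
  refine ⟨fun x hx => ?_, ?_, h3.subset fun x hx => ?_⟩
  · obtain ⟨hxK, hxX⟩ := mem_inter.1 hx
    rw [mem_nb]
    refine ⟨hxX, h3 (mem_coe.2 hz) (mem_coe.2 hxK) ?_⟩
    rintro rfl
    exact disjoint_left.1 hd hxX hzZ
  · have := DKU_card hd h1
    omega
  · exact mem_coe.2 (mem_inter.1 (mem_coe.1 hx)).1

/-- no vertex in `Z` -/
theorem DKU_zero (n : ℕ) :
    ((clq G (X ∪ Z) n).filter fun K => (K ∩ Z).card = 0).card ≤ kc G X n := by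
  rw [kc_eq]
  refine card_le_card fun K hK => ?_
  obtain ⟨h1, h2⟩ := mem_filter.1 hK
  rw [mem_clq] at h1 ⊢
  refine ⟨fun x hx => ?_, h1.2⟩
  rcases mem_union.1 (h1.1 hx) with h | h
  · exact h
  · exfalso
    rw [card_eq_zero] at h2
    have : x ∈ K ∩ Z := mem_inter.2 ⟨hx, h⟩
    rw [h2] at this
    exact notMem_empty x this

/-- one vertex in `Z` -/
theorem DKU_one (hd : Disjoint X Z) (n : ℕ) :
    ((clq G (X ∪ Z) (n + 1)).filter fun K => (K ∩ Z).card = 1).card ≤
      ∑ z ∈ Z, kc G (nb G X z) n := by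
  have h1 : ((clq G (X ∪ Z) (n + 1)).filter fun K => (K ∩ Z).card = 1) ⊆
      Z.biUnion fun z => (clq G (X ∪ Z) (n + 1)).filter fun K => K ∩ Z = {z} := by
    intro K hK
    obtain ⟨h1, h2⟩ := mem_filter.1 hK
    obtain ⟨z, hz⟩ := card_eq_one.1 h2
    rw [mem_biUnion]
    refine ⟨z, ?_, mem_filter.2 ⟨h1, hz⟩⟩
    have : z ∈ K ∩ Z := by rw [hz]; exact mem_singleton_self z
    exact (mem_inter.1 this).2
  refine (card_le_card h1).trans (card_biUnion_le.trans (sum_le_sum fun z hz => ?_))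
  rw [kc_eq]
  refine card_le_card_of_injOn (fun K => K ∩ X) ?_ ?_
  · intro K hK
    obtain ⟨h2, h3⟩ := mem_filter.1 (mem_coe.1 hK)
    have h4 : z ∈ K := by
      have : z ∈ K ∩ Z := by rw [h3]; exact mem_singleton_self z
      exact (mem_inter.1 this).1
    exact mem_coe.2 (DKU_rest G hd h2 h4 hz (by rw [h3, card_singleton]))
  · intro K hK K' hK' h
    obtain ⟨h2, h3⟩ := mem_filter.1 (mem_coe.1 hK)
    obtain ⟨h2', h3'⟩ := mem_filter.1 (mem_coe.1 hK')
    rw [← DKU_split ((mem_clq G).1 h2).1, ← DKU_split ((mem_clq G).1 h2').1, h3, h3']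
    change K ∩ X = K' ∩ X at h
    rw [h]

/-- two vertices in `Z` -/
theorem DKU_two (hd : Disjoint X Z) (n : ℕ) :
    2 * ((clq G (X ∪ Z) (n + 2)).filter fun K => (K ∩ Z).card = 2).card ≤
      ∑ z ∈ Z, (Z.card - 1) * kc G (nb G X z) n := by
  obtain ⟨S, hS⟩ : ∃ S, S = (clq G (X ∪ Z) (n + 2)).filter fun K => (K ∩ Z).card = 2 := ⟨_, rfl⟩
  rw [← hS]
  have hmem : ∀ K, K ∈ S ↔ K ∈ clq G (X ∪ Z) (n + 2) ∧ (K ∩ Z).card = 2 := by
    intro K
    rw [hS, mem_filter]
  have h1 : ∑ K ∈ S, (K ∩ Z).card = ∑ z ∈ Z, (S.filter fun K => z ∈ K).card := by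
    have h := sum_card_bipartiteAbove_eq_sum_card_bipartiteBelow (s := S) (t := Z)
      (fun K z => z ∈ K)
    have h2 : ∀ K : Finset V, (Z.bipartiteAbove (fun K z => z ∈ K) K) = K ∩ Z := by
      intro K
      ext x
      simp only [mem_bipartiteAbove, mem_inter]
      exact and_comm
    simp only [h2] at h
    exact h
  have h2 : ∑ K ∈ S, (K ∩ Z).card = 2 * S.card := by
    rw [sum_congr rfl (fun K hK => ((hmem K).1 hK).2), sum_const, smul_eq_mul, mul_comm]
  rw [← h2, h1]
  refine sum_le_sum fun z hz => ?_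
  have h3 : (((Z.erase z).image fun z' => ({z, z'} : Finset V)) ×ˢ clq G (nb G X z) n).card ≤
      (Z.card - 1) * kc G (nb G X z) n := by
    rw [card_product, kc_eq]
    refine Nat.mul_le_mul_right _ (card_image_le.trans ?_)
    rw [card_erase_of_mem hz]
  refine le_trans (card_le_card_of_injOn (fun K => (K ∩ Z, K ∩ X)) ?_ ?_) h3
  · intro K hK
    obtain ⟨hK1, hzK⟩ := mem_filter.1 (mem_coe.1 hK)
    obtain ⟨hK2, hK3⟩ := (hmem K).1 hK1
    refine mem_coe.2 (mem_product.2 ⟨?_, DKU_rest G hd hK2 hzK hz (by rw [hK3])⟩)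
    rw [mem_image]
    have hzm : z ∈ K ∩ Z := mem_inter.2 ⟨hzK, hz⟩
    have h4 : ((K ∩ Z).erase z).card = 1 := by
      rw [card_erase_of_mem hzm, hK3]
    obtain ⟨z', hz'⟩ := card_eq_one.1 h4
    have h5 : z' ∈ (K ∩ Z).erase z := by rw [hz']; exact mem_singleton_self z'
    obtain ⟨h6, h7⟩ := mem_erase.1 h5
    refine ⟨z', mem_erase.2 ⟨h6, (mem_inter.1 h7).2⟩, ?_⟩
    change ({z, z'} : Finset V) = K ∩ Z
    rw [← insert_erase hzm, hz']
  · intro K hK K' hK' h
    obtain ⟨hK1, -⟩ := mem_filter.1 (mem_coe.1 hK)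
    obtain ⟨hK1', -⟩ := mem_filter.1 (mem_coe.1 hK')
    have h4 := ((mem_clq G).1 ((hmem K).1 hK1).1).1
    have h4' := ((mem_clq G).1 ((hmem K').1 hK1').1).1
    change (K ∩ Z, K ∩ X) = (K' ∩ Z, K' ∩ X) at h
    obtain ⟨h5, h6⟩ := Prod.mk.inj h
    rw [← DKU_split h4, ← DKU_split h4', h5, h6]

/-- at least three vertices in `Z` -/
theorem DKU_three (hd : Disjoint X Z) (w : ℕ) :
    (((clq G (X ∪ Z) (w + 2)).filter fun K => 3 ≤ (K ∩ Z).card).card : ℝ) ≤
      (if Z.card ≤ 2 then 0 else (2 : ℝ) ^ Z.card * ((X.card : ℝ) + 1) ^ w / ((X.card : ℝ) + 1)) := by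
  split_ifs with hZ
  · have h1 : ((clq G (X ∪ Z) (w + 2)).filter fun K => 3 ≤ (K ∩ Z).card) = ∅ := by
      rw [filter_eq_empty_iff]
      intro K _ h
      have := card_le_card (inter_subset_right : K ∩ Z ⊆ Z)
      omega
    rw [h1, card_empty, Nat.cast_zero]
  · rcases w with _ | w
    · have h1 : ((clq G (X ∪ Z) (0 + 2)).filter fun K => 3 ≤ (K ∩ Z).card) = ∅ := by
        rw [filter_eq_empty_iff]
        intro K hK h
        have h2 := card_le_card (inter_subset_left : K ∩ Z ⊆ K)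
        have h3 := ((mem_clq G).1 hK).2.1
        omega
      rw [h1, card_empty, Nat.cast_zero]
      positivity
    · have h1 : ((clq G (X ∪ Z) (w + 1 + 2)).filter fun K => 3 ≤ (K ∩ Z).card).card ≤
          (X.card + 1) ^ w * (Z.powerset).card := by
        refine card_le_mul_card_image_of_maps_to (f := fun K => K ∩ Z)
          (fun K _ => mem_powerset.2 inter_subset_right) _ ?_
        intro Q _
        by_cases hQ : 3 ≤ Q.card ∧ Q.card ≤ w + 3
        · have h2 : (X.powersetCard (w + 3 - Q.card)).card ≤ (X.card + 1) ^ w := by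
            rw [card_powersetCard]
            calc X.card.choose (w + 3 - Q.card) ≤ X.card ^ (w + 3 - Q.card) :=
                  Nat.choose_le_pow _ _
              _ ≤ (X.card + 1) ^ (w + 3 - Q.card) := Nat.pow_le_pow_left (by omega) _
              _ ≤ (X.card + 1) ^ w := Nat.pow_le_pow_right (by omega) (by omega)
          refine le_trans (card_le_card_of_injOn (fun K => K ∩ X) ?_ ?_) h2
          · intro K hK
            obtain ⟨hK1, hK2⟩ := mem_filter.1 (mem_coe.1 hK)
            obtain ⟨hK3, hK4⟩ := mem_filter.1 hK1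
            obtain ⟨h5, h6, -⟩ := (mem_clq G).1 hK3
            refine mem_coe.2 (mem_powersetCard.2 ⟨inter_subset_right, ?_⟩)
            have h7 := DKU_card hd h5
            have h8 : (K ∩ Z).card = Q.card := by rw [hK2]
            change (K ∩ X).card = _
            omega
          · intro K hK K' hK' h
            obtain ⟨hK1, hK2⟩ := mem_filter.1 (mem_coe.1 hK)
            obtain ⟨hK3, hK4⟩ := mem_filter.1 hK1
            obtain ⟨hK1', hK2'⟩ := mem_filter.1 (mem_coe.1 hK')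
            obtain ⟨hK3', hK4'⟩ := mem_filter.1 hK1'
            change K ∩ Z = Q at hK2
            change K' ∩ Z = Q at hK2'
            change K ∩ X = K' ∩ X at h
            rw [← DKU_split ((mem_clq G).1 hK3).1, ← DKU_split ((mem_clq G).1 hK3').1, hK2, hK2', h]
        · have h2 : (((clq G (X ∪ Z) (w + 1 + 2)).filter fun K => 3 ≤ (K ∩ Z).card).filter
              fun K => K ∩ Z = Q) = ∅ := by
            rw [filter_eq_empty_iff]
            intro K hK h
            obtain ⟨hK3, hK4⟩ := mem_filter.1 hK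
            have h5 := ((mem_clq G).1 hK3).2.1
            have h6 := card_le_card (inter_subset_left : K ∩ Z ⊆ K)
            apply hQ
            rw [← h]
            constructor <;> omega
          rw [h2, card_empty]
          exact Nat.zero_le _
      rw [card_powerset] at h1
      have h2 : (((clq G (X ∪ Z) (w + 1 + 2)).filter fun K => 3 ≤ (K ∩ Z).card).card : ℝ) ≤
          ((X.card : ℝ) + 1) ^ w * 2 ^ Z.card := by
        exact_mod_cast h1
      refine h2.trans (le_of_eq ?_)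
      have h3 : (X.card : ℝ) + 1 ≠ 0 := by positivity
      rw [pow_succ]
      field_simp

end

theorem DKU_thm : DKUStmt := by
  intro V _ G X Z w hd
  have hsub : clq G (X ∪ Z) (w + 2) ⊆
      (((clq G (X ∪ Z) (w + 2)).filter fun K => (K ∩ Z).card = 0) ∪
      ((clq G (X ∪ Z) (w + 2)).filter fun K => (K ∩ Z).card = 1)) ∪
      (((clq G (X ∪ Z) (w + 2)).filter fun K => (K ∩ Z).card = 2) ∪
      ((clq G (X ∪ Z) (w + 2)).filter fun K => 3 ≤ (K ∩ Z).card)) := by
    intro K hK
    simp only [mem_union, mem_filter, hK, true_and]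
    omega
  have h1 := (card_le_card hsub).trans ((card_union_le _ _).trans
    (add_le_add (card_union_le _ _) (card_union_le _ _)))
  rw [← kc_eq] at h1
  have h2 := DKU_zero G (X := X) (Z := Z) (w + 2)
  have h3 := DKU_one G hd (w + 1)
  have h4 := DKU_two G hd w
  have h5 := DKU_three G hd w
  have h1' : (kc G (X ∪ Z) (w + 2) : ℝ) ≤
      ((((clq G (X ∪ Z) (w + 2)).filter fun K => (K ∩ Z).card = 0).card : ℝ) +
      (((clq G (X ∪ Z) (w + 2)).filter fun K => (K ∩ Z).card = 1).card : ℝ)) +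
      ((((clq G (X ∪ Z) (w + 2)).filter fun K => (K ∩ Z).card = 2).card : ℝ) +
      (((clq G (X ∪ Z) (w + 2)).filter fun K => 3 ≤ (K ∩ Z).card).card : ℝ)) := by
    exact_mod_cast h1
  have h2' : (((clq G (X ∪ Z) (w + 2)).filter fun K => (K ∩ Z).card = 0).card : ℝ) ≤
      kc G X (w + 2) := by exact_mod_cast h2
  have h3' : (((clq G (X ∪ Z) (w + 2)).filter fun K => (K ∩ Z).card = 1).card : ℝ) ≤
      ∑ z ∈ Z, (kc G (nb G X z) (w + 1) : ℝ) := by exact_mod_cast h3
  have h4' : 2 * (((clq G (X ∪ Z) (w + 2)).filter fun K => (K ∩ Z).card = 2).card : ℝ) ≤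
      ((Z.card : ℝ) - 1) * ∑ z ∈ Z, (kc G (nb G X z) w : ℝ) := by
    rcases Z.eq_empty_or_nonempty with hZ | hZ
    · subst hZ
      rw [sum_empty] at h4
      have h6 : ((clq G (X ∪ ∅) (w + 2)).filter fun K => (K ∩ ∅).card = 2).card = 0 := by omega
      rw [h6, sum_empty]
      simp
    · have h6 : 1 ≤ Z.card := card_pos.2 hZ
      have h7 : (2 * ((clq G (X ∪ Z) (w + 2)).filter fun K => (K ∩ Z).card = 2).card : ℝ) ≤
          ∑ z ∈ Z, (((Z.card - 1 : ℕ) : ℝ) * (kc G (nb G X z) w : ℝ)) := by exact_mod_cast h4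
      rw [← mul_sum, Nat.cast_sub h6, Nat.cast_one] at h7
      exact h7
  linarith

end Pool.GT7
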